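import Pool.Agent.Lib.BcrH.HMst

/-!
The hypergraphic relaxation, and the optimum of the instances in which a minimum spanning tree of
the terminals is an optimal Steiner tree, are at most `1 + 1 / √3` times the bidirected cut
relaxation.
-/

namespace Pool.Agent.Results.MP_c1293d_lc.Hypergraphic

open Bcr3

/-- number of parts of `π` which meet `K`, minus one -/
def rkp {V : Type} [DecidableEq V] {R : Finset V} (π : Finpartition R) (K : Finset V) : ℕ :=
  (π.parts.filter fun P => (P ∩ K).Nonempty).card - 1

/-- value of the hypergraphic (partition) relaxation: a set `K` of terminals has the price of a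
minimum Steiner tree for `K`, and every partition of the terminals has to be crossed -/
noncomputable def HYP {V : Type} [Fintype V] [DecidableEq V] (G : SimpleGraph V)
    (c : Sym2 V → ℝ) (R : Finset V) : ℝ :=
  sInf {w | ∃ x : Finset V → ℝ, (∀ K, 0 ≤ x K) ∧
    (∀ π : Finpartition R, (π.parts.card : ℝ) - 1 ≤ ∑ K ∈ R.powerset, x K * (rkp π K : ℝ)) ∧
    w = ∑ K ∈ R.powerset, x K * OPT G c K}

/-- distance: the smallest cost of a walk -/
noncomputable def dist {V : Type} (G : SimpleGraph V) (c : Sym2 V → ℝ) (u v : V) : ℝ :=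
  sInf {x | ∃ w : G.Walk u v, x = (w.edges.map c).sum}

open Classical in
/-- cost of a minimum spanning tree of the terminals for the distances -/
noncomputable def MST {V : Type} [Fintype V] [DecidableEq V] (G : SimpleGraph V)
    (c : Sym2 V → ℝ) (R : Finset V) : ℝ :=
  sInf {x | ∃ T : SimpleGraph {v // v ∈ R}, T.IsTree ∧
    x = (∑ u, ∑ v, if T.Adj u v then dist G c u.1 v.1 else 0) / 2}

/-- the ratios of the hypergraphic and of the bidirected cut relaxation over all instances with
positive value of the bidirected cut relaxation -/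
def HypRatios : Set ℝ :=
  {x | ∃ (V : Type) (_ : Fintype V) (_ : DecidableEq V) (G : SimpleGraph V) (c : Sym2 V → ℝ)
    (R : Finset V) (r : V), (∀ e, 0 ≤ c e) ∧ 2 ≤ R.card ∧ r ∈ R ∧
      (∃ T : G.Subgraph, IsSteinerTree R T) ∧ 0 < LP G c R r ∧ x = HYP G c R / LP G c R r}

/-- the ratios of the optimum and of the bidirected cut relaxation over all instances with positive
value of the relaxation in which a minimum spanning tree of the terminals costs no more than an
optimal Steiner tree -/
def MstRatios : Set ℝ :=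
  {x | ∃ (V : Type) (_ : Fintype V) (_ : DecidableEq V) (G : SimpleGraph V) (c : Sym2 V → ℝ)
    (R : Finset V) (r : V), (∀ e, 0 ≤ c e) ∧ 2 ≤ R.card ∧ r ∈ R ∧
      (∃ T : G.Subgraph, IsSteinerTree R T) ∧ MST G c R ≤ OPT G c R ∧ 0 < LP G c R r ∧
      x = OPT G c R / LP G c R r}

theorem reach {V : Type} {G : SimpleGraph V} {R : Finset V} {r : V} (hr : r ∈ R)
    {T : G.Subgraph} (hT : IsSteinerTree R T) : ∀ v ∈ R, G.Reachable r v := by
  intro v hv
  have h := hT.1.connected.preconnected ⟨r, hT.2 r hr⟩ ⟨v, hT.2 v hv⟩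
  exact h.map T.hom

theorem le_LP {V : Type} [Fintype V] [DecidableEq V] {G : SimpleGraph V} {c : Sym2 V → ℝ}
    {R : Finset V} {r : V} (hpos : 0 < LP G c R r) {a k : ℝ} (hk : 0 < k)
    (h : ∀ x : V → V → ℝ, Feasible G R r x → a ≤ k * ∑ u, ∑ v, c s(u, v) * x u v) :
    a / LP G c R r ≤ k := by
  rw [div_le_iff₀ hpos]
  have hne : {w | ∃ x : V → V → ℝ, Feasible G R r x ∧
      w = ∑ u, ∑ v, c s(u, v) * x u v}.Nonempty := by
    by_contra h
    rw [Set.not_nonempty_iff_eq_empty] at h
    unfold LP at hpos
    rw [h, Real.sInf_empty] at hpos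
    exact lt_irrefl _ hpos
  have h1 : a / k ≤ LP G c R r := by
    refine le_csInf hne ?_
    rintro w ⟨x, hx, rfl⟩
    have := h x hx
    rw [div_le_iff₀ hk]
    linarith
  rw [div_le_iff₀ hk] at h1
  linarith

/-- On every instance of the Steiner tree problem the hypergraphic relaxation is at most
`1 + 1 / √3` times the bidirected cut relaxation, and so is the optimum if a minimum spanning tree
of the terminals is an optimal Steiner tree. -/
theorem result : (∀ x ∈ HypRatios, x ≤ 1 + 1 / √3) ∧ (∀ x ∈ MstRatios, x ≤ 1 + 1 / √3) := by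
  have hk : (0 : ℝ) < 1 + 1 / √3 := by positivity
  constructor
  · rintro q ⟨V, _, _, G, c, R, r, hc, hR, hr, ⟨T, hT⟩, hpos, rfl⟩
    exact le_LP hpos hk fun x hx => BcrH.hyp_le hc hr (reach hr hT) hx
  · rintro q ⟨V, _, _, G, c, R, r, hc, hR, hr, ⟨T, hT⟩, hmst, hpos, rfl⟩
    have hmst' : BcrU.MST G c R ≤ OPT G c R := hmst
    exact le_LP hpos hk fun x hx => BcrH.upper_mst hc hr (reach hr hT) hmst' hx

end Pool.Agent.Results.MP_c1293d_lc.Hypergraphic
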