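import Pool.Agent.Lib.MP_c1293d_lc.Low.Num

/-!
The integrality gap of the bidirected cut relaxation is larger than `1.2224`.
-/

namespace Pool.Agent.Results.MP_c1293d_lc.LowerBound

open Bcr3 BcrL

/-- the ratios of the optimum and of the bidirected cut relaxation over all instances with positive
value of the relaxation (the integrality gap is the supremum of this set) -/
def Ratios : Set ℝ :=
  {x | ∃ (V : Type) (_ : Fintype V) (_ : DecidableEq V) (G : SimpleGraph V) (c : Sym2 V → ℝ)
    (R : Finset V) (r : V), (∀ e, 0 ≤ c e) ∧ 2 ≤ R.card ∧ r ∈ R ∧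
      (∃ T : G.Subgraph, IsSteinerTree R T) ∧ 0 < LP G c R r ∧ x = OPT G c R / LP G c R r}

/-- There is an instance of the Steiner tree problem on which the optimum is more than `1.2224` times
the value of the bidirected cut relaxation. -/
theorem result : ∃ x ∈ Ratios, (1.2224 : ℝ) < x := by
  have hk : (50000 : ℕ) < 1000000 := by norm_num
  set i : Fin 1000000 := ⟨0, by norm_num⟩ with hi
  set j : Fin 1000000 := ⟨1, by norm_num⟩ with hj
  have hij : i ≠ j := by
    rw [hi, hj]
    intro h
    exact absurd (Fin.mk.inj_iff.1 h) (by norm_num)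
  have h1 := opt_ge (k := 1000000) (s := 50000) (by norm_num) (by norm_num)
  have h2 := lp_ge (s := 50000) hij
  have h3 := lp_le (k := 1000000) (s := 50000) (q := 30419) (by norm_num) (by norm_num)
    (by norm_num) hk i
  have h4 := sigma_ge
  have hpos : 0 < LP (⊤ : SimpleGraph (Vt 1000000 50000)) (cc 1000000 50000) (RR 1000000 50000)
      (term 50000 i) := lt_of_lt_of_le (by norm_num) h2
  refine ⟨_, ⟨Vt 1000000 50000, inferInstance, inferInstance, ⊤, cc 1000000 50000,
    RR 1000000 50000, term 50000 i, cc_nonneg, ?_, term_mem i, exists_steiner _, hpos, rfl⟩, ?_⟩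
  · rw [card_RR (by norm_num)]
    norm_num
  · rw [lt_div_iff₀ hpos]
    refine lt_of_lt_of_le ?_ h1
    refine lt_of_le_of_lt (mul_le_mul_of_nonneg_left h3 (by norm_num)) ?_
    push_cast
    norm_num at h4 ⊢
    nlinarith
end Pool.Agent.Results.MP_c1293d_lc.LowerBound
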