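import Pool.Agent.Lib.MP_c1293d_lc.Flow
import Pool.Agent.Lib.MP_c1293d_lc.Upper

/-!
The integrality gap of the bidirected cut relaxation on instances with three terminals is 12/11.
-/

namespace Pool.Agent.Results.MP_c1293d_lc.ThreeTerminals

open Bcr3

/-- the ratios of the optimum and of the bidirected cut relaxation over all instances with exactly
three terminals and positive value of the relaxation -/
def Ratios : Set ℝ :=
  {q | ∃ (V : Type) (_ : Fintype V) (_ : DecidableEq V) (G : SimpleGraph V) (c : Sym2 V → ℝ)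
    (R : Finset V) (r : V), (∀ e, 0 ≤ c e) ∧ R.card = 3 ∧ r ∈ R ∧
      (∃ T : G.Subgraph, IsSteinerTree R T) ∧ 0 < LP G c R r ∧ q = OPT G c R / LP G c R r}

theorem reach {V : Type} {G : SimpleGraph V} {R : Finset V} {T : G.Subgraph}
    (hT : IsSteinerTree R T) {a b : V} (ha : a ∈ R) (hb : b ∈ R) : G.Reachable a b := by
  have h := hT.1.connected.preconnected ⟨a, hT.2 a ha⟩ ⟨b, hT.2 b hb⟩
  exact h.map T.hom

theorem upper_three {V : Type} [Fintype V] [DecidableEq V] {G : SimpleGraph V} {c : Sym2 V → ℝ}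
    {R : Finset V} {r : V} (hc : ∀ e, 0 ≤ c e) (hR : R.card = 3) (hr : r ∈ R)
    (hex : ∃ T : G.Subgraph, IsSteinerTree R T) : 11 / 12 * OPT G c R ≤ LP G c R r := by
  obtain ⟨T, hT⟩ := hex
  have h2 : (R.erase r).card = 2 := by
    rw [Finset.card_erase_of_mem hr, hR]
  obtain ⟨x, y, hxy, hxyR⟩ := Finset.card_eq_two.1 h2
  have hRe : R = {r, x, y} := by
    rw [← Finset.insert_erase hr, hxyR]
  have hx : x ∈ R := by rw [hRe]; simp
  have hy : y ∈ R := by rw [hRe]; simp
  exact (upper hc (reach hT hr hx) (reach hT hr hy) hRe).2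

/-- The integrality gap of the bidirected cut relaxation over the instances with exactly three
terminals is `12 / 11`. -/
theorem result : IsLUB Ratios (12 / 11) := by
  constructor
  · rintro q ⟨V, _, _, G, c, R, r, hc, hR, hr, hex, hpos, rfl⟩
    have h := upper_three hc hR hr hex
    rw [div_le_iff₀ hpos]
    linarith
  · intro q hq
    by_contra hlt
    rw [not_le] at hlt
    obtain ⟨m, hm⟩ := exists_nat_gt (max 1 (4 / (121 * (12 / 11 - q))))
    have hm1 : (1 : ℝ) < m := lt_of_le_of_lt (le_max_left _ _) hm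
    have hm2 : 4 / (121 * (12 / 11 - q)) < m := lt_of_le_of_lt (le_max_right _ _) hm
    have hm0 : 1 ≤ m := by
      have : 1 < m := by exact_mod_cast hm1
      exact this.le
    have hd : 0 < 12 / 11 - q := sub_pos.2 hlt
    rw [div_lt_iff₀ (by positivity)] at hm2
    have hO := opt_lower (m := m)
    have hL := lp_upper hm0
    have hr : (tt 0 : Vt m) ∈ RR m := by
      unfold RR
      simp
    have hup := upper_three (cc_nonneg (m := m)) card_RR hr exists_tree
    have hpos : 0 < LP (gr m) (cc m) (RR m) (tt 0) := by linarith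
    have hq' := hq ⟨Vt m, inferInstance, inferInstance, gr m, cc m, RR m, tt 0, cc_nonneg, card_RR,
      hr, exists_tree, hpos, rfl⟩
    rw [div_le_iff₀ hpos] at hq'
    have h3 : 3 * (m : ℝ) ^ 2 / (3 * m + 1) = m - 1 / 3 + 1 / (3 * (3 * m + 1)) := by
      have : (3 * (m : ℝ) + 1) ≠ 0 := by positivity
      field_simp
      ring
    have h4 : 0 < 1 / (3 * (3 * (m : ℝ) + 1)) := by positivity
    have hL2 : LP (gr m) (cc m) (RR m) (tt 0) ≤ 11 * m + 1 / 3 := by
      rw [h3] at hL
      linarith
    have h5 : 12 * (m : ℝ) ≤ q * LP (gr m) (cc m) (RR m) (tt 0) := hO.trans hq'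
    have h6 : 11 * (m : ℝ) ≤ LP (gr m) (cc m) (RR m) (tt 0) := by linarith
    nlinarith [mul_le_mul_of_nonneg_left h6 hd.le]

end Pool.Agent.Results.MP_c1293d_lc.ThreeTerminals
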