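import Pool.Agent.Lib.BcrP.PFin

/-!
The integrality gap of the bidirected cut relaxation is at most `1.81`.
-/

namespace Pool.Agent.Results.MP_c1293d_lc.UpperBound

open Bcr3

/-- the ratios of the optimum and of the bidirected cut relaxation over all instances with positive
value of the relaxation (the integrality gap is the supremum of this set) -/
def Ratios : Set ℝ :=
  {x | ∃ (V : Type) (_ : Fintype V) (_ : DecidableEq V) (G : SimpleGraph V) (c : Sym2 V → ℝ)
    (R : Finset V) (r : V), (∀ e, 0 ≤ c e) ∧ 2 ≤ R.card ∧ r ∈ R ∧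
      (∃ T : G.Subgraph, IsSteinerTree R T) ∧ 0 < LP G c R r ∧ x = OPT G c R / LP G c R r}

/-- On every instance of the Steiner tree problem the optimum is at most `1.81` times the value of
the bidirected cut relaxation. -/
theorem result : ∀ x ∈ Ratios, x ≤ 1.81 := by
  rintro q ⟨V, _, _, G, c, R, r, hc, hR, hr, ⟨T, hT⟩, hpos, rfl⟩
  have hreach : ∀ v ∈ R, G.Reachable r v := by
    intro v hv
    have h := hT.1.connected.preconnected ⟨r, hT.2 r hr⟩ ⟨v, hT.2 v hv⟩
    exact h.map T.hom
  rw [div_le_iff₀ hpos]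
  have hne : {w | ∃ x : V → V → ℝ, Feasible G R r x ∧
      w = ∑ u, ∑ v, c s(u, v) * x u v}.Nonempty := by
    by_contra h
    rw [Set.not_nonempty_iff_eq_empty] at h
    unfold LP at hpos
    rw [h, Real.sInf_empty] at hpos
    exact lt_irrefl _ hpos
  have h : OPT G c R / 1.81 ≤ LP G c R r := by
    refine le_csInf hne ?_
    rintro w ⟨x, hx, rfl⟩
    have := BcrP.upper hc hr hreach hx
    rw [div_le_iff₀ (by norm_num)]
    linarith
  rw [div_le_iff₀ (by norm_num)] at h
  linarith

end Pool.Agent.Results.MP_c1293d_lc.UpperBound
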